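import Pool.Agent.Helper556_sys.PropADef

set_option autoImplicit false

namespace Pool.Agent.Results.MP_e4602c_al.BridgedPropertyA

open Pool.Agent.Helper556_sys

universe u

/-- Every connected graph without isometric cycles of length at least four (the 1-skeleton of a
systolic complex) in which each vertex lies in at most `N` finite cliques (simplices) has Yu's
Property A for its path metric. -/
theorem result :
    ∀ (V : Type u) (G : SimpleGraph V),
      G.Connected →
      (∃ N : ℕ, ∀ v : V, ∀ S : Finset (Finset V),
          (∀ s ∈ S, v ∈ s ∧ G.IsClique (s : Set V)) → S.card ≤ N) →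
      (∀ n : ℕ, 4 ≤ n → ∀ c : Fin n → V,
          ¬ ∀ i j : Fin n,
            G.dist (c i) (c j) =
              min ((i : ℕ) - (j : ℕ) + ((j : ℕ) - (i : ℕ)))
                  (n - ((i : ℕ) - (j : ℕ) + ((j : ℕ) - (i : ℕ))))) →
      PropertyA G := by
  intro V G hc hN hcyc
  obtain ⟨N, hN⟩ := hN
  exact propertyA_of_br (br_of_noIso hc (noIso_of_fin hcyc)) (deg_of_cliques hc hN)

end Pool.Agent.Results.MP_e4602c_al.BridgedPropertyA
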